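import Pool.Agent.Helper7.KT.St

set_option autoImplicit false

namespace Pool.Agent.Helper13.KT

open Finset SimpleGraph Filter Topology
open EX Pool.Agent.Helper7.KT

open scoped Classical

/-- The set which is not yet covered. -/
noncomputable def bad {n : ℕ} (δ : ℝ) (R : Fin n → Fin n → Prop) (X : Finset (Fin n)) :
    Finset (Fin n) :=
  univ.filter fun v => δ * n ≤ ((univ.filter fun u => R u v).card : ℝ) ∧ ∀ u ∈ X, ¬ R u v

lemma cov_step {n : ℕ} (δ : ℝ) (hδ : 0 < δ) (R : Fin n → Fin n → Prop) (X : Finset (Fin n)) :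
    ∃ Y : Finset (Fin n), Y.card ≤ X.card + 1 ∧
      ((bad δ R Y).card : ℝ) ≤ (1 - δ) * (bad δ R X).card := by
  by_cases h0 : (bad δ R X) = ∅
  · exact ⟨X, by omega, by simp [h0]⟩
  obtain ⟨v0, hv0⟩ := Finset.nonempty_of_ne_empty h0
  have hne : (univ : Finset (Fin n)).Nonempty := ⟨v0, mem_univ _⟩
  have hsum : ∑ _u : Fin n, δ * ((bad δ R X).card : ℝ) ≤
      ∑ u : Fin n, (((bad δ R X).filter fun v => R u v).card : ℝ) := by
    have h1 : ∑ u : Fin n, (((bad δ R X).filter fun v => R u v).card : ℝ) =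
        ∑ v ∈ bad δ R X, ((univ.filter fun u => R u v).card : ℝ) := by
      have := Finset.sum_card_bipartiteAbove_eq_sum_card_bipartiteBelow
        (s := (univ : Finset (Fin n))) (t := bad δ R X) (fun u v => R u v)
      unfold Finset.bipartiteAbove Finset.bipartiteBelow at this
      exact_mod_cast this
    rw [h1]
    have h2 : ∑ v ∈ bad δ R X, δ * (n : ℝ) ≤
        ∑ v ∈ bad δ R X, ((univ.filter fun u => R u v).card : ℝ) := by
      apply Finset.sum_le_sum
      intro v hv
      unfold bad at hv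
      rw [mem_filter] at hv
      exact hv.2.1
    refine le_trans (le_of_eq ?_) h2
    rw [Finset.sum_const, Finset.sum_const, Finset.card_univ, Fintype.card_fin, nsmul_eq_mul,
      nsmul_eq_mul]
    ring
  obtain ⟨u, -, hu⟩ := Finset.exists_le_of_sum_le hne hsum
  refine ⟨insert u X, Finset.card_insert_le _ _, ?_⟩
  have hsub : bad δ R (insert u X) ⊆ (bad δ R X).filter fun v => ¬ R u v := by
    intro v hv
    unfold bad at hv ⊢
    rw [mem_filter] at hv
    rw [mem_filter, mem_filter]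
    exact ⟨⟨mem_univ _, hv.2.1, fun w hw => hv.2.2 w (mem_insert_of_mem hw)⟩,
      hv.2.2 u (mem_insert_self _ _)⟩
  have h3 : ((bad δ R X).filter fun v => R u v).card +
      ((bad δ R X).filter fun v => ¬ R u v).card = (bad δ R X).card :=
    Finset.card_filter_add_card_filter_not _
  have h4 : ((bad δ R (insert u X)).card : ℝ) ≤ ((bad δ R X).filter fun v => ¬ R u v).card := by
    exact_mod_cast Finset.card_le_card hsub
  have h5 : (((bad δ R X).filter fun v => R u v).card : ℝ) +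
      ((bad δ R X).filter fun v => ¬ R u v).card = (bad δ R X).card := by
    exact_mod_cast h3
  linarith

theorem hCOV : StCOV := by
  intro δ hδ ε hε
  obtain ⟨δ', hδ', hδ1, hle⟩ : ∃ δ' : ℝ, 0 < δ' ∧ δ' ≤ 1 ∧ δ' ≤ δ :=
    ⟨min δ 1, lt_min hδ one_pos, min_le_right _ _, min_le_left _ _⟩
  obtain ⟨i, hi⟩ := exists_pow_lt_of_lt_one hε (show 1 - δ' < 1 by linarith)
  refine ⟨i, fun n R => ?_⟩
  have key : ∀ j : ℕ, ∃ X : Finset (Fin n), X.card ≤ j ∧
      ((bad δ' R X).card : ℝ) ≤ (1 - δ') ^ j * n := by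
    intro j
    induction j with
    | zero =>
      refine ⟨∅, by simp, ?_⟩
      rw [pow_zero, one_mul]
      have : (bad δ' R ∅).card ≤ n := by
        refine (Finset.card_le_univ _).trans ?_
        rw [Fintype.card_fin]
      exact_mod_cast this
    | succ j ih =>
      obtain ⟨X, hX1, hX2⟩ := ih
      obtain ⟨Y, hY1, hY2⟩ := cov_step δ' hδ' R X
      refine ⟨Y, by omega, hY2.trans ?_⟩
      have h0 : 0 ≤ 1 - δ' := by linarith
      calc (1 - δ') * ((bad δ' R X).card : ℝ) ≤ (1 - δ') * ((1 - δ') ^ j * n) :=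
            mul_le_mul_of_nonneg_left hX2 h0
        _ = (1 - δ') ^ (j + 1) * n := by ring
  obtain ⟨X, hX1, hX2⟩ := key i
  refine ⟨X, hX1, ?_⟩
  have hn : (0 : ℝ) ≤ n := Nat.cast_nonneg n
  have h6 : ((univ.filter fun v => δ * n ≤ ((univ.filter fun u => R u v).card : ℝ) ∧
      ∀ u ∈ X, ¬ R u v).card : ℝ) ≤ (bad δ' R X).card := by
    have : (univ.filter fun v => δ * n ≤ ((univ.filter fun u => R u v).card : ℝ) ∧
      ∀ u ∈ X, ¬ R u v) ⊆ bad δ' R X := by
      intro v hv
      unfold bad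
      rw [mem_filter] at hv ⊢
      refine ⟨mem_univ _, le_trans ?_ hv.2.1, hv.2.2⟩
      exact mul_le_mul_of_nonneg_right hle hn
    exact_mod_cast Finset.card_le_card this
  calc ((univ.filter fun v => δ * n ≤ ((univ.filter fun u => R u v).card : ℝ) ∧
      ∀ u ∈ X, ¬ R u v).card : ℝ) ≤ (bad δ' R X).card := h6
    _ ≤ (1 - δ') ^ i * n := hX2
    _ ≤ ε * n := mul_le_mul_of_nonneg_right hi.le hn

end Pool.Agent.Helper13.KT
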